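import Mathlib
import Pool.Agent.H6.Deter3

open MeasureTheory Set Filter Topology
open scoped Real
open Pool.Agent Pool.Agent.H6

namespace Pool.Agent.Results.MP_103a5c_nt.DeterminantalRigidity

lemma chf_eq_re (g : Measure ℝ) [IsFiniteMeasure g] (u : ℝ) : (charFun g (2 * π * u)).re = chf g u := by
  rw [charFun_apply_real]
  have hint : Integrable (fun x : ℝ => Complex.exp (((2 * π * u : ℝ) : ℂ) * x * Complex.I)) g := by
    apply Integrable.of_bound (C := 1)
    · exact (by fun_prop : Continuous fun x : ℝ => Complex.exp (((2 * π * u : ℝ) : ℂ) * x * Complex.I)).aestronglyMeasurable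
    · exact ae_of_all _ fun x => by
        rw [← Complex.ofReal_mul, Complex.norm_exp_ofReal_mul_I]
  have h := integral_re hint
  have h2 : ∀ x : ℝ, RCLike.re (Complex.exp (((2 * π * u : ℝ) : ℂ) * x * Complex.I)) = Real.cos (2 * π * u * x) := by
    intro x
    have : (Complex.exp (((2 * π * u : ℝ) : ℂ) * x * Complex.I)).re = Real.cos (2 * π * u * x) := by
      rw [← Complex.ofReal_mul, Complex.exp_ofReal_mul_I_re]
    exact this
  simp_rw [h2] at h
  unfold chf
  exact h.symm

lemma charFun_im (g : Measure ℝ) [IsFiniteMeasure g] (u : ℝ) :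
    (charFun g (2 * π * u)).im = ∫ x, Real.sin (2 * π * u * x) ∂g := by
  rw [charFun_apply_real]
  have hint : Integrable (fun x : ℝ => Complex.exp (((2 * π * u : ℝ) : ℂ) * x * Complex.I)) g := by
    apply Integrable.of_bound (C := 1)
    · exact (by fun_prop : Continuous fun x : ℝ => Complex.exp (((2 * π * u : ℝ) : ℂ) * x * Complex.I)).aestronglyMeasurable
    · exact ae_of_all _ fun x => by
        rw [← Complex.ofReal_mul, Complex.norm_exp_ofReal_mul_I]
  have h := integral_im hint
  have h2 : ∀ x : ℝ, RCLike.im (Complex.exp (((2 * π * u : ℝ) : ℂ) * x * Complex.I)) = Real.sin (2 * π * u * x) := by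
    intro x
    have : (Complex.exp (((2 * π * u : ℝ) : ℂ) * x * Complex.I)).im = Real.sin (2 * π * u * x) := by
      rw [← Complex.ofReal_mul, Complex.exp_ofReal_mul_I_im]
    exact this
  simp_rw [h2] at h
  exact h.symm

/-- The autocorrelation of a finite measure. -/
noncomputable def diffLaw (ρ : Measure ℝ) : Measure ℝ := (ρ.prod ρ).map (fun p => p.1 - p.2)

instance (ρ : Measure ℝ) [IsFiniteMeasure ρ] : IsFiniteMeasure (diffLaw ρ) := by
  unfold diffLaw
  infer_instance

lemma chf_diffLaw (ρ : Measure ℝ) [IsFiniteMeasure ρ] (u : ℝ) :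
    chf (diffLaw ρ) u = ‖charFun ρ (2 * π * u)‖ ^ 2 := by
  have h1 : ‖charFun ρ (2 * π * u)‖ ^ 2 = (∫ x, Real.cos (2 * π * u * x) ∂ρ) * (∫ x, Real.cos (2 * π * u * x) ∂ρ)
      + (∫ x, Real.sin (2 * π * u * x) ∂ρ) * (∫ x, Real.sin (2 * π * u * x) ∂ρ) := by
    rw [Complex.sq_norm, Complex.normSq_apply, charFun_im, chf_eq_re]
    rfl
  rw [h1]
  unfold chf diffLaw
  rw [integral_map (by fun_prop) (by fun_prop)]
  have hs : Integrable (fun x => Real.sin (2 * π * u * x)) ρ := by
    apply Integrable.of_bound (C := 1)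
    · exact (by fun_prop : Continuous fun ξ : ℝ => Real.sin (2 * π * u * ξ)).aestronglyMeasurable
    · exact ae_of_all _ fun ξ => by rw [Real.norm_eq_abs]; exact Real.abs_sin_le_one _
  have hc := integrable_cos ρ u
  rw [← integral_prod_mul, ← integral_prod_mul, ← integral_add (hc.mul_prod hc) (hs.mul_prod hs)]
  congr 1
  ext p
  rw [show 2 * π * u * (p.1 - p.2) = 2 * π * u * p.1 - 2 * π * u * p.2 by ring, Real.cos_sub]

/-- Uniform distribution on `[-1/2, 1/2]`. -/
noncomputable def unif : Measure ℝ := volume.restrict (Icc (-(1 / 2)) (1 / 2))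

instance : IsProbabilityMeasure unif := by
  constructor
  unfold unif
  rw [Measure.restrict_apply_univ, Real.volume_Icc]
  norm_num

lemma norm_charFun_unif (u : ℝ) : ‖charFun unif (2 * π * u)‖ ^ 2 = (Real.sinc (π * u)) ^ 2 := by
  have h1 : (charFun unif (2 * π * u)).re = Real.sinc (π * u) := by
    rw [chf_eq_re]
    unfold chf unif
    rw [integral_Icc_eq_integral_Ioc, ← intervalIntegral.integral_of_le (by norm_num)]
    rcases eq_or_ne u 0 with h | h
    · subst h
      simp
      norm_num
    · have h2 : 2 * π * u ≠ 0 := by positivity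
      have h3 : π * u ≠ 0 := by positivity
      rw [intervalIntegral.integral_comp_mul_left (fun x => Real.cos x) h2, integral_cos,
        Real.sinc_of_ne_zero h3, smul_eq_mul,
        show 2 * π * u * -(1 / 2) = -(π * u) by ring, show 2 * π * u * (1 / 2) = π * u by ring, Real.sin_neg]
      field_simp
      ring
  have h2 : (charFun unif (2 * π * u)).im = 0 := by
    rw [charFun_im]
    unfold unif
    rw [integral_Icc_eq_integral_Ioc, ← intervalIntegral.integral_of_le (by norm_num)]
    have h3 := intervalIntegral.integral_comp_neg (f := fun x => Real.sin (2 * π * u * x)) (a := -(1 / 2)) (b := 1 / 2)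
    rw [neg_neg] at h3
    have h4 : ∫ x in (-(1 / 2) : ℝ)..(1 / 2), Real.sin (2 * π * u * -x)
        = -∫ x in (-(1 / 2) : ℝ)..(1 / 2), Real.sin (2 * π * u * x) := by
      rw [← intervalIntegral.integral_neg]
      congr 1
      ext x
      rw [mul_neg, Real.sin_neg]
    rw [h4] at h3
    linarith
  rw [Complex.sq_norm, Complex.normSq_apply, h1, h2]
  ring

/-- Assume RH and let `l` be any countably generated way of letting `T` tend to infinity (the full
limit `T → ∞`, or the limit along any sequence `T_n → ∞`). The following are equivalent: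

1. the pair correlation conjecture holds along `l`, for every window `α < β`;
2. along `l` the pair correlation of the zeros has the determinantal form: for some finite positive
   measure `ρ` with transform `K(u) = ∫ exp(2πiuξ) dρ(ξ)`, the number of pairs in each window
   `0 < α < β` is asymptotic to `∫_α^β (1 - |K(u)|²) du` times `(T/2π) log T`;
3. along `l` the hole of the pair correlation is positive definite: the same holds with density
   `1 - Re ĝ(u)` for some finite positive measure `g` on the real line. -/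
theorem result (hRH : RiemannHypothesis) (l : Filter ℝ) [l.IsCountablyGenerated] (hl : l ≤ atTop) :
    [ ∀ α β : ℝ, α < β → Tendsto (fun T => PC.pairCount T α β / (PC.gue α β * PC.norm T)) l (𝓝 1),
      ∃ ρ : Measure ℝ, IsFiniteMeasure ρ ∧ ∀ α β : ℝ, 0 < α → α < β →
        Tendsto (fun T => PC.pairCount T α β / PC.norm T) l
          (𝓝 (∫ u in α..β, (1 - ‖charFun ρ (2 * π * u)‖ ^ 2))),
      ∃ g : Measure ℝ, IsFiniteMeasure g ∧ ∀ α β : ℝ, 0 < α → α < β →
        Tendsto (fun T => PC.pairCount T α β / PC.norm T) l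
          (𝓝 (∫ u in α..β, (1 - (charFun g (2 * π * u)).re))) ].TFAE := by
  obtain ⟨CR, I⟩ := exists_inputs hRH
  have hgt1 : ∀ᶠ T in l, 1 < T := hl (eventually_gt_atTop 1)
  tfae_have 1 → 2 := by
    intro h
    refine ⟨unif, inferInstance, fun α β hα hαβ => ?_⟩
    have h1 := (h α β hαβ).mul_const (PC.gue α β)
    have hg := gue_pos hαβ
    have e : ∫ u in α..β, (1 - ‖charFun unif (2 * π * u)‖ ^ 2) = PC.gue α β := by
      simp_rw [norm_charFun_unif]
      unfold PC.gue
      rw [if_neg (fun h' => by linarith [h'.1]), add_zero]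
    rw [e]
    rw [one_mul] at h1
    apply h1.congr'
    filter_upwards [hgt1] with T hT
    have hn := norm_pos hT
    field_simp
  tfae_have 2 → 3 := by
    rintro ⟨ρ, hρ, h⟩
    refine ⟨diffLaw ρ, inferInstance, fun α β hα hαβ => ?_⟩
    have e : ∀ u, (charFun (diffLaw ρ) (2 * π * u)).re = ‖charFun ρ (2 * π * u)‖ ^ 2 := by
      intro u
      rw [chf_eq_re, chf_diffLaw]
    simp_rw [e]
    exact h α β hα hαβ
  tfae_have 3 → 1 := by
    rintro ⟨g, hg, h⟩
    simp_rw [chf_eq_re] at h
    have hPW : ∀ α β, 0 < α → α < β → Tendsto (fun T => PW gZ wZ FZ T α β) l (𝓝 (∫ u in α..β, (1 - chf g u))) := by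
      intro α β hα hαβ
      apply (h α β hα hαβ).congr'
      filter_upwards [hgt1] with T hT
      rw [PW_eq hRH hT]
    have hlim : ∀ ns L, Tendsto ns atTop l → IsLimit gZ wZ FZ ns L → ∀ᵐ β ∂vpos, L β = G2 β := by
      intro ns L hns hL
      have hev : ∀ u, 1 - chf g (-u) = 1 - chf g u := by
        intro u
        unfold chf
        congr 2
        ext ξ
        rw [show 2 * π * -u * ξ = -(2 * π * u * ξ) by ring, Real.cos_neg]
      obtain ⟨m, hm1, hm⟩ := hL.eq_of_density wZ_nonneg (hns.mono_right hl)
        (continuous_const.sub (continuous_chf g)) hev (fun α β hα hαβ => (hPW α β hα hαβ).comp hns)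
      obtain ⟨h1, h2⟩ := chf_eq_sinc hL g hm1 hm
      filter_upwards [hm] with β hβ
      rw [hβ, h1]
      unfold G2
      congr 1
      apply intervalIntegral.integral_congr
      intro u _
      change 1 - chf g u = _
      rw [h2]
    have hM := tendsto_of_limits_filter I one_le_wZ hl hlim
    intro α β hαβ
    have h3 := tendsto_windows_filter I one_le_wZ hl hM hαβ
    have hg := gue_pos hαβ
    have h4 := h3.div_const (PC.gue α β)
    rw [div_self hg.ne'] at h4
    apply h4.congr'
    filter_upwards [hgt1] with T hT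
    have hn := norm_pos hT
    rw [PW_eq hRH hT]
    field_simp
  tfae_finish

end Pool.Agent.Results.MP_103a5c_nt.DeterminantalRigidity
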